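import Pool.Agent.Run7.h30.EM.TopRes

/-!
# Finite generation in weight `d` for proper regular schemes, and all arithmetic schemes

`Arith d X`: `X` is proper over `ℤ`, regular and connected, of dimension `d`. `IsArithmetic X`: `X` is
separated and of finite type over `ℤ` (possibly singular, not proper, not connected).

`EtMots` collects the groups `H^i(X_et, ℤ^c(n))`, `n ≤ 0`, of arithmetic schemes (hypercohomology of the
cycle complexes of dimension `n`), and `H^i(X_et, ℤ(n))` of proper regular schemes, with the known
properties which are used: `H^i(X_et, ℤ^c(n)) = H^(2d+i)(X_et, ℤ(d - n))` for proper regular `X` of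
dimension `d`; localization sequences; unique divisibility for `i < -2 dim X`; finiteness of the
torsion and finiteness for `i = -2 n + 1` (`X` proper regular), if `n < 0`; transfer for finite flat
morphisms; the projective bundle formula; for `n < 0` and proper regular `X` finite generation for
`i ≤ -2 n + 1` implies finite generation for all `i`. `DeJong` is the theorem of de Jong on alterations
of arithmetic schemes.

The conjecture (Q1) says that `H^i(X_et, ℤ(d))` is finitely generated for all `i ≤ 2 d`, for proper
regular connected `X` of dimension `d`.

* Q1 for all `X` is equivalent to the following: Q1; for ALL arithmetic schemes `X` and all `n < 0` all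
  groups `H^i(X_et, ℤ^c(n))` are finitely generated; for ALL arithmetic schemes `X` and all `n ≤ 0` the
  groups `H^i(X_et, ℤ^c(n))` are zero for `i < -2 dim X`. The last statement, applied to étale
  `U → X`, shows that the complexes `ℤ^c(n)` of étale sheaves are bounded below (which is not known).
* It is also equivalent to the part of Q1 for the pairs (dimension `d`, degree `2 d - e ≥ 0`) in a set
  `W` which contains for every `e` pairs with arbitrarily large `d`, for instance to Q1 for the degrees
  `2 d - f(d) ≤ i ≤ 2 d` only, where `f` is any unbounded function.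
* The second half of Q1, the vanishing of `H^i(X_et, ℤ(d))` for `i < 0` (a case of the conjecture of
  Beilinson and Soulé) for proper regular `X`, is equivalent to the vanishing of `H^i(X_et, ℤ^c(n))` for
  `i < -2 dim X` for all arithmetic schemes and all `n ≤ 0`.
-/

set_option autoImplicit false

open AlgebraicGeometry Pool.Agent.Run7.h30.EM

namespace Pool.Agent.Results.MP_b197b4_nt.AllArithmeticSchemes

/-- **From proper regular schemes in weight `d` to all arithmetic schemes.** -/
theorem result (hJ : DeJong) (T : EtMots) :
    (∀ W : ℕ → ℕ → Prop, (∀ e N : ℕ, ∃ d : ℕ, N ≤ d ∧ W d e) →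
      List.TFAE [T.Q1, T.Part W, T.Q1 ∧ T.Negative ∧ T.Bounded]) ∧
    (T.Vanish ↔ T.Bounded) ∧
    ∀ f : ℕ → ℕ, (∀ N : ℕ, ∃ d : ℕ, N ≤ f d) → ∀ e N : ℕ, ∃ d : ℕ, N ≤ d ∧ e ≤ f d := by
  refine ⟨fun W hW => ?_, vanish_iff T hJ, window⟩
  tfae_have 1 → 2 := fun h d X hX e he _ => h d X hX _ (by omega)
  tfae_have 2 → 3 := all_of_part T hJ hW
  tfae_have 3 → 1 := fun h => h.1
  tfae_finish

end Pool.Agent.Results.MP_b197b4_nt.AllArithmeticSchemes
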