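import Pool.Agent.Run7.h312.FG.Elem

/-!
# Finite generation of étale motivic cohomology of smooth proper schemes over finite fields:
abelian varieties with elementary relations between the Frobenius eigenvalues

The abelian varieties. Over an algebraic closure of the field with `p` elements each abelian
variety is isogenous to the reduction of an abelian variety of CM type (Honda, Tate). So an abelian
variety over the field with `p ^ a` elements is modelled by `RedAV`: a finite product of CM types `(E
i, Φ i)` with Weil numbers `π i ∈ E i` that satisfy the formula of Shimura and Taniyama; its
cohomology of degree `n`, with coefficients in an algebraically closed field `Ω`, consists of the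
alternating `n`-forms on `Ω ⊗ H_1`, on which the Frobenius endomorphism acts by `π`. We consider
the abelian varieties `Y` that are, over an algebraic closure, isogenous to products of powers of
simple factors of an abelian variety `Z` and of a supersingular abelian variety
(`IsPowersTimesSupersingular`), where `Z` has elementary relations (`HasElementaryRelations`): the
multiplicative relations between the eigenvalues of Frobenius on `H^1(Z)` and `q` are consequences of
those which

* involve at most two eigenvalues, or
* involve only eigenvalues of factors of `Z` whose dimensions add up to at most five, no two of
  which form an exceptional pair; or of factors of dimension at most three, any two of which are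
  isogenous if their CM fields have the same Galois closure, unless these fields are Galois over `ℚ` or
  one of the factors is supersingular, or
* belong to Weil classes of an imaginary quadratic field on an abelian variety of dimension three,
  four or five, or of dimension six if `p` splits in this field.

So for instance `Z` may be any abelian variety of dimension at most five without exceptional pairs
(second part of the theorem); in particular any simple abelian variety of dimension at most five, or
any product of abelian surfaces and threefolds the CM fields of which have different Galois
closures.

The theorem: **for all smooth, proper and connected schemes `X` over finite fields of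
dimension `d` the Chow motive of which (with rational coefficients) is a direct summand of a direct
sum of twists of motives of abelian varieties `Y l` as above (arithmetic schemes, regular and proper over `ℤ`):** (`IsFinite`)

* the étale motivic cohomology groups `H^i(X_et, ℤ(n))` are **finite** for all `n ≥ 0`, `i < 2 n`, and
  **zero** for `n > 0`, `i ≤ 0`;
* `H^(2 n)(X_et, ℤ(n))` is finite for `n > d`, and finitely generated for `n = d`.

In particular `H^i(X_et, ℤ(d))` is **finitely generated for all `i ≤ 2 d`**, also for negative `i` (the
question), and the same is true for all weights `n ≥ d`, `i ≤ 2 n`.

`IsEtale` lists the known properties of these groups that are used: for `i ≤ 2 n` the torsion is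
finite (Deligne, Gabber; Colliot-Thélène, Sansuc, Soulé; Gros, Suwa), there is no torsion for `i ≤ 0`,
`H^(2 n)(X_et, ℤ(n))` is torsion for `n > d` and finitely generated for `n = d`. `Motivic` are the data
of the rational motivic cohomology of the abelian varieties `Y l`, and `IsSummand` says that up to
torsion `H^i(X_et, ℤ(n))` is contained in the sum of the groups `H^(i - 2 r l)(Y l, ℚ(n - r l))`.

Properties of the theory of cycles that are used for the abelian varieties (`IsChow`, `IsMotivic`):
Poincaré duality, the formal properties of correspondences, the nilpotence of homologically trivial
correspondences (Kimura), the operation of the Frobenius endomorphism on higher Chow groups, the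
vanishing of the higher rational `K`-groups of a finite field (Quillen), and the algebraicity of the
Tate classes in `Alg` (theorems of Tate and Markman).

The proof: by the starting files (`TH117`) the Tate classes on these abelian varieties are generated
by Tate classes of degree two and Weil classes, so they are algebraic; by the arguments of Soulé,
Geisser and Kahn, formalized in the starting files (`W495/FM`), `H^i(Y, ℚ(n)) = 0` for `i ≠ 2 n`, hence
`H^i(X_et, ℤ(n))` is torsion.
-/

set_option autoImplicit false

namespace Pool.Agent.Results.MP_b197b4_nt.ElementaryRelations

open Pool.Agent.W495.TA Pool.Agent.W495.FM Pool.Agent.TH117 Pool.Agent.TH117.GN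
  Pool.Agent.Run7.h312

/-- (1) **Finite generation of the étale motivic cohomology of smooth proper schemes over finite
fields the motives of which are direct summands of sums of twists of motives of abelian varieties
that are, over an algebraic closure, products of powers of the simple factors of abelian varieties
with elementary relations and of supersingular ones.** (2) Abelian varieties of dimension at most
five without exceptional pairs, and abelian varieties with factors of dimension at most three as in
`IsGoodSet`, have elementary relations. -/
theorem result (p : ℕ) [Fact p.Prime] (ν : PadicAlgCl p ≃+* ℂ) :
    (∀ (Ω : Type) [Field Ω] [IsAlgClosed Ω] [CharZero Ω] (I : Type) (Y : I → RedAV p ν)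
      (C : ∀ l, Cycles Ω (Y l)) (M : ∀ l, Motivic (C l)) (r : I → ℤ) (H : ℤ → ℤ → Type)
      [∀ i n, AddCommGroup (H i n)] (d : ℕ),
      (∀ l, (∃ Z : RedAV p ν, BL.HasElementaryRelations Z ∧
        BL.IsPowersTimesSupersingular Z (Y l)) ∧ IsChow (C l) ∧ IsMotivic (M l)) →
      IsSummand M r H → FG.IsEtale H d → FG.IsFinite H d) ∧
    ∀ Z : RedAV p ν, BL.IsGoodSet Z Set.univ → BL.HasElementaryRelations Z :=
  ⟨fun _ _ _ _ _ _ _ _ _ _ _ _ h hX hH => FG.isFinite_of_summand (fun l => (h l).2.1)
    (fun l => (h l).2.2) (fun l => (h l).1.elim fun _ h1 => tateHolds_elem h1.1 h1.2 (h l).2.1)
    hX hH, fun _ h => elem_of_good h⟩

end Pool.Agent.Results.MP_b197b4_nt.ElementaryRelations
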